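import Pool.Agent.W37.SG.Stm

set_option autoImplicit false

namespace Pool.Agent.W538.SG.D4

open Pool.Agent.W37.SG

variable {p : ℕ}

theorem ginv {α : Type} (g : Equiv.Perm α) (x : α) : g (g⁻¹ x) = x := g.apply_symm_apply x

theorem invg {α : Type} (g : Equiv.Perm α) (x : α) : g⁻¹ (g x) = x := g.symm_apply_apply x

theorem agree {g : Equiv.Perm (ℕ → ZMod p)} (hg : IsTri p g) {i : ℕ} {x y : ℕ → ZMod p}
    (h : ∀ j < i, x j = y j) : ∀ j < i, g x j = g y j := by
  intro j hj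
  have h1 := hg j x y fun m hm => h m (hm.trans hj)
  rw [h j hj] at h1
  exact sub_left_injective h1

theorem agree_inv {g : Equiv.Perm (ℕ → ZMod p)} (hg : IsTri p g) {i : ℕ} {x y : ℕ → ZMod p}
    (h : ∀ j < i, x j = y j) : ∀ j < i, g⁻¹ x j = g⁻¹ y j := by
  intro j
  induction j using Nat.strong_induction_on with
  | _ j ih =>
    intro hj
    have h1 := hg j (g⁻¹ x) (g⁻¹ y) fun m hm => ih m hm (hm.trans hj)
    rw [ginv, ginv, h j hj] at h1
    exact sub_right_injective h1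

theorem tri_mul {g h : Equiv.Perm (ℕ → ZMod p)} (hg : IsTri p g) (hh : IsTri p h) :
    IsTri p (g * h) := by
  intro i x y hxy
  have h1 := hh i x y hxy
  have h2 := hg i (h x) (h y) (agree hh hxy)
  rw [Equiv.Perm.mul_apply, Equiv.Perm.mul_apply]
  linear_combination h1 + h2

theorem tri_inv {g : Equiv.Perm (ℕ → ZMod p)} (hg : IsTri p g) : IsTri p g⁻¹ := by
  intro i x y hxy
  have h2 := hg i (g⁻¹ x) (g⁻¹ y) (agree_inv hg hxy)
  rw [ginv, ginv] at h2
  linear_combination -h2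

theorem ext0_fin (v : ℕ) (y : Fin v → ZMod p) (i : Fin v) : ext0 p v y i = y i := by
  unfold ext0
  rw [dif_pos i.2]

theorem ext0_lt (v : ℕ) (y : Fin v → ZMod p) (i : ℕ) (hi : i < v) :
    ext0 p v y i = y ⟨i, hi⟩ := by
  unfold ext0
  rw [dif_pos hi]

/-- The first `v` coordinates of `h (ext0 y)`. -/
def ph (h : Equiv.Perm (ℕ → ZMod p)) (v : ℕ) (y : Fin v → ZMod p) : Fin v → ZMod p :=
  fun i => h (ext0 p v y) i

theorem ph_inj {h : Equiv.Perm (ℕ → ZMod p)} (hh : IsTri p h) (v : ℕ) :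
    Function.Injective (ph h v) := by
  intro y y' e
  have h1 : ∀ j < v, h (ext0 p v y) j = h (ext0 p v y') j := fun j hj =>
    congrFun e (⟨j, hj⟩ : Fin v)
  have h2 := agree_inv hh h1
  funext i
  have h3 := h2 i i.2
  rw [invg, invg, ext0_fin, ext0_fin] at h3
  exact h3

theorem tau_mul [NeZero p] {g h : Equiv.Perm (ℕ → ZMod p)} (hg : IsTri p g) (hh : IsTri p h)
    (v : ℕ) : tau p v (g * h) = tau p v g + tau p v h := by
  unfold tau
  have hb : Function.Bijective (ph h v) := Finite.injective_iff_bijective.mp (ph_inj hh v)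
  rw [← hb.sum_comp (fun y => g (ext0 p v y) v - ext0 p v y v), ← Finset.sum_add_distrib]
  refine Finset.sum_congr rfl fun y _ => ?_
  have h1 := hg v (h (ext0 p v y)) (ext0 p v (ph h v y)) (fun j hj => by
    rw [ext0_lt v _ j hj]; rfl)
  rw [Equiv.Perm.mul_apply]
  linear_combination h1

theorem tau_one [NeZero p] (v : ℕ) : tau p v (1 : Equiv.Perm (ℕ → ZMod p)) = 0 := by
  unfold tau
  refine Finset.sum_eq_zero fun y _ => ?_
  rw [Equiv.Perm.one_apply, sub_self]

theorem tau_inv [NeZero p] {g : Equiv.Perm (ℕ → ZMod p)} (hg : IsTri p g) (v : ℕ) :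
    tau p v g⁻¹ = - tau p v g := by
  have h1 := tau_mul hg (tri_inv hg) v
  rw [mul_inv_cancel, tau_one] at h1
  exact (neg_eq_of_add_eq_zero_right h1.symm).symm

theorem main : S_D4 := by
  intro p _ g h hg hh
  exact ⟨tri_mul hg hh, tri_inv hg, fun v => tau_mul hg hh v, fun v => tau_inv hg v⟩

end Pool.Agent.W538.SG.D4
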